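import Pool.Agent.TH553.RS.Bessel
import Mathlib.Analysis.SpecialFunctions.Trigonometric.Chebyshev.Basic

/-! Means of polynomials in two jointly equidistributed sequences of cosines of angles. -/

set_option autoImplicit false

namespace Pool.Agent.Y792.EP

open Filter Topology Polynomial MeasureTheory Pool.Agent.W540.BE Pool.Agent.TH553.RS

set_option linter.unusedSectionVars false

/-- Chebyshev polynomials of the second kind -/
noncomputable abbrev Uc (n : ℕ) : ℝ[X] := Chebyshev.U ℝ (n : ℤ)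

theorem Uc_zero : Uc 0 = 1 := by simp [Uc]

theorem Uc_one : Uc 1 = 2 * X := by simp [Uc]

theorem Uc_add_two (n : ℕ) : Uc (n + 2) = 2 * X * Uc (n + 1) - Uc n := by
  have := Chebyshev.U_add_two ℝ (n : ℤ)
  simpa [Uc] using this

theorem Uc_natDegree (n : ℕ) : (Uc n).natDegree = n := Chebyshev.natDegree_U_natCast ℝ n

theorem X_mul_mem {q : ℝ[X]} (h : q ∈ Submodule.span ℝ (Set.range Uc)) :
    X * q ∈ Submodule.span ℝ (Set.range Uc) := by
  induction h using Submodule.span_induction with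
  | mem x hx =>
    obtain ⟨n, rfl⟩ := hx
    cases n with
    | zero =>
      have e : X * Uc 0 = (1 / 2 : ℝ) • Uc 1 := by
        rw [Uc_zero, Uc_one, smul_eq_C_mul, ← mul_assoc]
        have : (C (1 / 2 : ℝ) * 2 : ℝ[X]) = 1 := by
          rw [← map_ofNat (C : ℝ →+* ℝ[X]) 2, ← C_mul]
          norm_num
        rw [this]
        ring
      rw [e]
      exact Submodule.smul_mem _ _ (Submodule.subset_span ⟨1, rfl⟩)
    | succ n =>
      have e : X * Uc (n + 1) = (1 / 2 : ℝ) • (Uc (n + 2) + Uc n) := by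
        rw [Uc_add_two, smul_eq_C_mul]
        have : (C (1 / 2 : ℝ) * 2 : ℝ[X]) = 1 := by
          rw [← map_ofNat (C : ℝ →+* ℝ[X]) 2, ← C_mul]
          norm_num
        linear_combination (-(X * Uc (n + 1))) * this
      rw [e]
      exact Submodule.smul_mem _ _ (Submodule.add_mem _ (Submodule.subset_span ⟨_, rfl⟩)
        (Submodule.subset_span ⟨_, rfl⟩))
  | zero => simp
  | add x y _ _ hx hy =>
    rw [mul_add]
    exact Submodule.add_mem _ hx hy
  | smul a x _ hx =>
    rw [mul_smul_comm]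
    exact Submodule.smul_mem _ _ hx

theorem mem_span (p : ℝ[X]) : p ∈ Submodule.span ℝ (Set.range Uc) := by
  have h1 : ∀ n : ℕ, (X ^ n : ℝ[X]) ∈ Submodule.span ℝ (Set.range Uc) := by
    intro n
    induction n with
    | zero =>
      rw [pow_zero, ← Uc_zero]
      exact Submodule.subset_span ⟨0, rfl⟩
    | succ n ih =>
      rw [pow_succ']
      exact X_mul_mem ih
  induction p using Polynomial.induction_on' with
  | add p q hp hq => exact Submodule.add_mem _ hp hq
  | monomial n a =>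
    rw [← C_mul_X_pow_eq_monomial, ← smul_eq_C_mul]
    exact Submodule.smul_mem _ _ (h1 n)

/-- the measure on the interval of angles -/
noncomputable def mu : Measure ℝ := volume.restrict (Set.Ioc 0 Real.pi)

instance : IsFiniteMeasure mu := by
  unfold mu
  infer_instance

/-- the integrand -/
noncomputable def ig (p : ℝ[X]) (θ : ℝ) : ℝ := p.eval (Real.cos θ) * Real.sin θ ^ 2

theorem cont_ig (p : ℝ[X]) : Continuous (ig p) := by
  unfold ig
  fun_prop

theorem int_ig (p : ℝ[X]) : Integrable (ig p) mu := by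
  unfold mu
  have h := (cont_ig p).integrableOn_Icc (μ := volume) (a := 0) (b := Real.pi)
  exact h.mono_set Set.Ioc_subset_Icc_self

/-- the Sato-Tate integral of a polynomial -/
noncomputable def Ist (p : ℝ[X]) : ℝ := 2 / Real.pi * ∫ θ, ig p θ ∂mu

theorem Ist_add (p q : ℝ[X]) : Ist (p + q) = Ist p + Ist q := by
  unfold Ist
  rw [← mul_add, ← integral_add (int_ig p) (int_ig q)]
  congr 1
  refine integral_congr_ae (Filter.Eventually.of_forall fun θ => ?_)
  simp only [ig, eval_add]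
  ring

theorem Ist_smul (c : ℝ) (p : ℝ[X]) : Ist (c • p) = c * Ist p := by
  have h : ∫ θ, ig (c • p) θ ∂mu = c * ∫ θ, ig p θ ∂mu := by
    rw [← integral_const_mul]
    refine integral_congr_ae (Filter.Eventually.of_forall fun θ => ?_)
    simp only [ig, eval_smul, smul_eq_mul]
    ring
  unfold Ist
  rw [h]
  ring

theorem Ist_Uc (n : ℕ) : Ist (Uc n) = if n = 0 then 1 else 0 := by
  unfold Ist mu
  have h1 : ∀ θ : ℝ, ig (Uc n) θ =
      1 / 2 * (Real.cos ((n : ℝ) * θ) - Real.cos (((n : ℝ) + 2) * θ)) := by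
    intro θ
    unfold ig
    have h := Chebyshev.U_real_cos θ (n : ℤ)
    have h2 : (Uc n).eval (Real.cos θ) * Real.sin θ = Real.sin (((n : ℝ) + 1) * θ) := by
      simpa using h
    have h3 : (Uc n).eval (Real.cos θ) * Real.sin θ ^ 2 =
        Real.sin (((n : ℝ) + 1) * θ) * Real.sin θ := by
      rw [← h2]
      ring
    rw [h3]
    have e1 : (n : ℝ) * θ = ((n : ℝ) + 1) * θ - θ := by ring
    have e2 : ((n : ℝ) + 2) * θ = ((n : ℝ) + 1) * θ + θ := by ring
    rw [e1, e2, Real.cos_sub, Real.cos_add]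
    ring
  have h2 : ∫ θ in Set.Ioc 0 Real.pi, ig (Uc n) θ = ∫ θ in (0 : ℝ)..Real.pi,
      1 / 2 * (Real.cos ((n : ℝ) * θ) - Real.cos (((n : ℝ) + 2) * θ)) := by
    rw [intervalIntegral.integral_of_le Real.pi_pos.le]
    refine setIntegral_congr_fun measurableSet_Ioc fun θ _ => ?_
    exact h1 θ
  have hk : ∀ k : ℕ, k ≠ 0 → ∫ θ in (0 : ℝ)..Real.pi, Real.cos ((k : ℝ) * θ) = 0 := by
    intro k hk
    have hk0 : (k : ℝ) ≠ 0 := by exact_mod_cast hk
    rw [intervalIntegral.integral_comp_mul_left (fun x => Real.cos x) hk0, integral_cos]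
    simp [Real.sin_nat_mul_pi]
  have h3 : ∫ θ in (0 : ℝ)..Real.pi, Real.cos (((n : ℝ) + 2) * θ) = 0 := by
    have := hk (n + 2) (by omega)
    push_cast at this
    exact this
  rw [h2, intervalIntegral.integral_const_mul, intervalIntegral.integral_sub
    (Continuous.intervalIntegrable (by fun_prop) _ _)
    (Continuous.intervalIntegrable (by fun_prop) _ _), h3, sub_zero]
  split_ifs with h
  · subst h
    have := Real.pi_pos.ne'
    simp only [Nat.cast_zero, zero_mul, Real.cos_zero, intervalIntegral.integral_const, sub_zero,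
      smul_eq_mul, mul_one]
    field_simp
  · rw [hk n h]
    ring

section Two

variable {P : Type*} {N : P → ℕ} {U : Ultrafilter ℝ}

theorem bd_eval {x : P → ℝ} (hx : ∀ v, |x v| ≤ 1) (p : ℝ[X]) : Bd fun v => p.eval (x v) := by
  obtain ⟨C, hC⟩ := (isCompact_Icc (a := (-1 : ℝ)) (b := 1)).exists_bound_of_continuousOn
    (f := fun t => p.eval t) (by fun_prop)
  exact ⟨C, fun v => hC _ (abs_le.1 (hx v))⟩

variable (N) in
/-- joint equidistribution -/
def JT (x y : P → ℝ) : Prop := ∀ m n : ℕ, (m ≠ 0 ∨ n ≠ 0) →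
  Tendsto (qt N fun v => (Uc m).eval (x v) * (Uc n).eval (y v)) (𝓝[>] 0) (𝓝 0)

theorem JT.symm {x y : P → ℝ} (h : JT N x y) : JT N y x := by
  intro m n hmn
  refine (h n m hmn.symm).congr fun ε => ?_
  congr 1
  funext v
  ring

variable (hN : Sys N) (hU : (U : Filter ℝ) ≤ 𝓝[>] 0) {x y : P → ℝ} (hx : ∀ v, |x v| ≤ 1)
  (hy : ∀ v, |y v| ≤ 1)

include hN hU hx hy

theorem mean_two (hJ : JT N x y) (p q : ℝ[X]) :
    (M N U fun v => p.eval (x v) * q.eval (y v)) = Ist p * Ist q := by
  have hb : ∀ p q : ℝ[X], Bd fun v => p.eval (x v) * q.eval (y v) := fun p q =>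
    (bd_eval hx p).mul (bd_eval hy q)
  have h0 : ∀ m n : ℕ, (M N U fun v => (Uc m).eval (x v) * (Uc n).eval (y v)) =
      Ist (Uc m) * Ist (Uc n) := by
    intro m n
    rw [Ist_Uc, Ist_Uc]
    by_cases h : m ≠ 0 ∨ n ≠ 0
    · rw [M_of_tendsto hU (hJ m n h)]
      rcases h with h | h
      · rw [if_neg h, zero_mul]
      · rw [if_neg h, mul_zero]
    · push Not at h
      obtain ⟨rfl, rfl⟩ := h
      simp only [Uc_zero, eval_one, mul_one, if_true]
      exact M_one hN hU
  have h1 : ∀ n : ℕ, (M N U fun v => p.eval (x v) * (Uc n).eval (y v)) =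
      Ist p * Ist (Uc n) := by
    intro n
    have hp := mem_span p
    induction hp using Submodule.span_induction with
    | mem x hx =>
      obtain ⟨m, rfl⟩ := hx
      exact h0 m n
    | zero =>
      have e : Ist 0 = 0 := by
        have := Ist_smul 0 0
        simpa using this
      simp only [eval_zero, zero_mul, e]
      exact M_const hN hU 0
    | add a b _ _ ha hb' =>
      simp only [eval_add, add_mul]
      rw [M_add hN hU (hb a (Uc n)) (hb b (Uc n)), ha, hb', Ist_add, add_mul]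
    | smul c a _ ha =>
      simp only [eval_smul, smul_eq_mul, mul_assoc]
      rw [M_const_mul hN hU (hb a (Uc n)), ha, Ist_smul, mul_assoc]
  have hq := mem_span q
  induction hq using Submodule.span_induction with
  | mem x hx =>
    obtain ⟨m, rfl⟩ := hx
    exact h1 m
  | zero =>
    have e : Ist 0 = 0 := by
      have := Ist_smul 0 0
      simpa using this
    simp only [eval_zero, mul_zero, e]
    exact M_const hN hU 0
  | add a b _ _ ha hb' =>
    simp only [eval_add, mul_add]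
    rw [M_add hN hU (hb p a) (hb p b), ha, hb', Ist_add, mul_add]
  | smul c a _ ha =>
    simp only [eval_smul, smul_eq_mul]
    have e : (fun v => eval (x v) p * (c * eval (y v) a)) =
        fun v => c * (eval (x v) p * eval (y v) a) := by
      funext v
      ring
    rw [e, M_const_mul hN hU (hb p a), ha, Ist_smul]
    ring

omit hN hU hx hy in
theorem integrable_two (p q : ℝ[X]) :
    Integrable (fun z : ℝ × ℝ => ig p z.1 * ig q z.2) (mu.prod mu) :=
  (int_ig p).mul_prod (int_ig q)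

/-- **Positivity.** -/
theorem pos_gen {κ : Type*} (K : Finset κ) (p q : κ → ℝ[X])
    (hm : ∀ k ∈ K, ∀ l ∈ K, (M N U fun v => (p k * p l).eval (x v) * (q k * q l).eval (y v)) =
      Ist (p k * p l) * Ist (q k * q l)) {a b : ℝ}
    (ha : a ∈ Set.Ioo (-1 : ℝ) 1) (hb : b ∈ Set.Ioo (-1 : ℝ) 1)
    (hab : ∑ k ∈ K, (p k).eval a * (q k).eval b ≠ 0) :
    0 < M N U fun v => (∑ k ∈ K, (p k).eval (x v) * (q k).eval (y v)) ^ 2 := by
  have hbd : ∀ p q : ℝ[X], Bd fun v => p.eval (x v) * q.eval (y v) := fun p q =>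
    (bd_eval hx p).mul (bd_eval hy q)
  have e1 : (fun v => (∑ k ∈ K, (p k).eval (x v) * (q k).eval (y v)) ^ 2) =
      fun v => ∑ k ∈ K, ∑ l ∈ K, (p k * p l).eval (x v) * (q k * q l).eval (y v) := by
    funext v
    rw [sq, Finset.sum_mul_sum]
    refine Finset.sum_congr rfl fun k _ => Finset.sum_congr rfl fun l _ => ?_
    rw [eval_mul, eval_mul]
    ring
  have e2 : (M N U fun v => (∑ k ∈ K, (p k).eval (x v) * (q k).eval (y v)) ^ 2) =
      ∑ k ∈ K, ∑ l ∈ K, Ist (p k * p l) * Ist (q k * q l) := by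
    rw [e1, M_sum hN hU K fun k _ => Bd.sum K fun l _ => hbd (p k * p l) (q k * q l)]
    refine Finset.sum_congr rfl fun k hk => ?_
    rw [M_sum hN hU K fun l _ => hbd (p k * p l) (q k * q l)]
    exact Finset.sum_congr rfl fun l hl => hm k hk l hl
  have e3 : ∑ k ∈ K, ∑ l ∈ K, Ist (p k * p l) * Ist (q k * q l) =
      (2 / Real.pi) ^ 2 * ∫ z : ℝ × ℝ, ∑ k ∈ K, ∑ l ∈ K,
        ig (p k * p l) z.1 * ig (q k * q l) z.2 ∂(mu.prod mu) := by
    rw [integral_finsetSum _ fun k _ => integrable_finsetSum _ fun l _ => integrable_two _ _,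
      Finset.mul_sum]
    refine Finset.sum_congr rfl fun k _ => ?_
    rw [integral_finsetSum _ fun l _ => integrable_two _ _, Finset.mul_sum]
    refine Finset.sum_congr rfl fun l _ => ?_
    rw [integral_prod_mul]
    unfold Ist
    ring
  rw [e2, e3]
  have hpi := Real.pi_pos
  refine mul_pos (by positivity) ?_
  set g : ℝ × ℝ → ℝ := fun z => ∑ k ∈ K, ∑ l ∈ K,
        ig (p k * p l) z.1 * ig (q k * q l) z.2 with hg
  have hg2 : ∀ z, g z = (∑ k ∈ K, (p k).eval (Real.cos z.1) * (q k).eval (Real.cos z.2)) ^ 2 *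
      (Real.sin z.1 ^ 2 * Real.sin z.2 ^ 2) := by
    intro z
    rw [hg, sq, Finset.sum_mul_sum, Finset.sum_mul]
    refine Finset.sum_congr rfl fun k _ => ?_
    rw [Finset.sum_mul]
    refine Finset.sum_congr rfl fun l _ => ?_
    unfold ig
    rw [eval_mul, eval_mul]
    ring
  have hgc : Continuous g := by
    have : g = fun z => (∑ k ∈ K, (p k).eval (Real.cos z.1) * (q k).eval (Real.cos z.2)) ^ 2 *
      (Real.sin z.1 ^ 2 * Real.sin z.2 ^ 2) := funext hg2
    rw [this]
    fun_prop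
  have hg0 : ∀ z, 0 ≤ g z := fun z => by
    rw [hg2]
    positivity
  have hgi : Integrable g (mu.prod mu) :=
    integrable_finsetSum _ fun k _ => integrable_finsetSum _ fun l _ => integrable_two _ _
  rw [integral_pos_iff_support_of_nonneg hg0 hgi]
  set O : Set (ℝ × ℝ) := {z | g z ≠ 0} ∩ (Set.Ioo 0 Real.pi ×ˢ Set.Ioo 0 Real.pi) with hO
  have hOo : IsOpen O :=
    ((isOpen_ne_fun hgc continuous_const)).inter (isOpen_Ioo.prod isOpen_Ioo)
  have hmem : (Real.arccos a, Real.arccos b) ∈ O := by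
    have hsin : ∀ t : ℝ, t ∈ Set.Ioo (-1 : ℝ) 1 → Real.arccos t ∈ Set.Ioo 0 Real.pi := by
      intro t ht
      refine ⟨Real.arccos_pos.2 ht.2, lt_of_le_of_ne (Real.arccos_le_pi _) fun h => ?_⟩
      rw [Real.arccos_eq_pi] at h
      linarith [ht.1]
    refine ⟨?_, hsin a ha, hsin b hb⟩
    change g _ ≠ 0
    rw [hg2]
    simp only
    rw [Real.cos_arccos ha.1.le ha.2.le, Real.cos_arccos hb.1.le hb.2.le]
    have s1 := Real.sin_pos_of_mem_Ioo (hsin a ha)
    have s2 := Real.sin_pos_of_mem_Ioo (hsin b hb)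
    positivity
  have hpos : 0 < (mu.prod mu) O := by
    unfold mu
    rw [Measure.prod_restrict, Measure.restrict_apply hOo.measurableSet]
    have h4 : O ∩ Set.Ioc 0 Real.pi ×ˢ Set.Ioc 0 Real.pi = O := by
      refine Set.inter_eq_left.2 fun z hz => ?_
      exact ⟨Set.Ioo_subset_Ioc_self hz.2.1, Set.Ioo_subset_Ioc_self hz.2.2⟩
    rw [h4]
    exact hOo.measure_pos _ ⟨_, hmem⟩
  refine hpos.trans_le (measure_mono fun z hz => ?_)
  exact hz.1

theorem pos_two (hJ : JT N x y) {κ : Type*} (K : Finset κ) (p q : κ → ℝ[X]) {a b : ℝ}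
    (ha : a ∈ Set.Ioo (-1 : ℝ) 1) (hb : b ∈ Set.Ioo (-1 : ℝ) 1)
    (hab : ∑ k ∈ K, (p k).eval a * (q k).eval b ≠ 0) :
    0 < M N U fun v => (∑ k ∈ K, (p k).eval (x v) * (q k).eval (y v)) ^ 2 :=
  pos_gen hN hU hx hy K p q (fun _ _ _ _ => mean_two hN hU hx hy hJ _ _) ha hb hab

end Two

end Pool.Agent.Y792.EP
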