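import Pool.Agent.Y792.EP.Strict
import Pool.Agent.TH553.RS.Artin
import Pool.Agent.Y677.SM.EC

/-! Products of symmetric powers of elliptic curves and Artin representations: the means. -/

set_option autoImplicit false

namespace Pool.Agent.Y792.EP

open Complex Filter Topology ComplexConjugate Pool.Agent.H341R2 NumberField IsDedekindDomain
  Pool.Agent.W401.Cheb Polynomial Pool.Agent.W540.BE Pool.Agent.TH553.RS

set_option linter.unusedSectionVars false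

/-- complete symmetric polynomial -/
noncomputable def hs (α β : ℂ) (a : ℕ) : ℂ := ∑ i ∈ Finset.range (a + 1), α ^ i * β ^ (a - i)

theorem hs_zero (α β : ℂ) : hs α β 0 = 1 := by simp [hs]

theorem hs_succ (α β : ℂ) (a : ℕ) : hs α β (a + 1) = α * hs α β a + β ^ (a + 1) := by
  unfold hs
  rw [Finset.sum_range_succ', Finset.mul_sum]
  congr 1
  · refine Finset.sum_congr rfl fun i _ => ?_
    rw [Nat.add_sub_add_right]
    ring
  · simp

theorem hs_succ' (α β : ℂ) (a : ℕ) : hs α β (a + 1) = β * hs α β a + α ^ (a + 1) := by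
  unfold hs
  rw [Finset.sum_range_succ, Finset.mul_sum]
  congr 1
  · refine Finset.sum_congr rfl fun i hi => ?_
    rw [Finset.mem_range] at hi
    rw [show a + 1 - i = (a - i) + 1 by omega]
    ring
  · simp

theorem hs_add_two (α β : ℂ) (a : ℕ) :
    hs α β (a + 2) = (α + β) * hs α β (a + 1) - α * β * hs α β a := by
  have h1 := hs_succ α β (a + 1)
  have h2 := hs_succ α β a
  linear_combination h1 - β * h2

theorem hs_eq {α β : ℂ} {r c : ℝ} (h1 : α + β = ((2 * r * c : ℝ) : ℂ))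
    (h2 : α * β = ((r ^ 2 : ℝ) : ℂ)) (a : ℕ) :
    hs α β a = ((r ^ a * (Uc a).eval c : ℝ) : ℂ) := by
  induction a using Nat.twoStepInduction with
  | zero => simp [hs_zero]
  | one =>
    rw [hs_succ, hs_zero, Uc_one]
    simp only [eval_mul, eval_ofNat, eval_X, zero_add, pow_one, mul_one]
    rw [h1]
    push_cast
    ring
  | more a ih1 ih2 =>
    rw [hs_add_two, h1, h2, ih1, ih2, Uc_add_two]
    simp only [eval_sub, eval_mul, eval_ofNat, eval_X]
    push_cast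
    ring

section
variable {F : Type} [Field F] [NumberField F]

/-- the cosine of the Frobenius angle -/
noncomputable def cosv (W : WeierstrassCurve (𝓞 F)) (v : HeightOneSpectrum (𝓞 F)) : ℝ :=
  if |(trv W v : ℝ)| ≤ 2 * Real.sqrt (nm F v) then (trv W v : ℝ) / (2 * Real.sqrt (nm F v)) else 0

theorem abs_cosv (W : WeierstrassCurve (𝓞 F)) (v : HeightOneSpectrum (𝓞 F)) :
    |cosv W v| ≤ 1 := by
  have h0 : (0 : ℝ) < nm F v := by exact_mod_cast nm_pos v
  have h1 : 0 < 2 * Real.sqrt (nm F v) := by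
    have := Real.sqrt_pos.2 h0
    linarith
  unfold cosv
  split_ifs with h
  · rw [abs_div, abs_of_pos h1, div_le_one h1]
    exact h
  · simp

theorem roots (W : WeierstrassCurve (𝓞 F)) (hΔ : W.Δ ≠ 0) :
    ∃ α : HeightOneSpectrum (𝓞 F) → Fin 2 → ℂ, ∀ᶠ v in cofinite,
      (∀ j, ‖α v j‖ = (nm F v : ℝ) ^ (1 / 2 : ℝ)) ∧ α v 0 + α v 1 = (trv W v : ℂ) ∧
        α v 0 * α v 1 = ((nm F v : ℕ) : ℂ) ∧ |(trv W v : ℝ)| ≤ 2 * Real.sqrt (nm F v) := by
  have h6 : (6 : 𝓞 F) ≠ 0 := by norm_num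
  have hgood : ∀ᶠ v : HeightOneSpectrum (𝓞 F) in cofinite,
      (6 : 𝓞 F) ∉ v.asIdeal ∧ W.Δ ∉ v.asIdeal := by
    rw [Filter.eventually_cofinite]
    refine ((finite_mem_prime h6).union (finite_mem_prime hΔ)).subset fun v hv => ?_
    rw [Set.mem_ofPred_eq, not_and_or, not_not, not_not] at hv
    exact hv
  have hex : ∀ v : HeightOneSpectrum (𝓞 F), ∃ α : Fin 2 → ℂ,
      ((6 : 𝓞 F) ∉ v.asIdeal ∧ W.Δ ∉ v.asIdeal) →
        (∀ j, ‖α j‖ = (nm F v : ℝ) ^ (1 / 2 : ℝ)) ∧ α 0 + α 1 = (trv W v : ℂ) ∧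
          α 0 * α 1 = ((nm F v : ℕ) : ℂ) := by
    intro v
    by_cases h : (6 : 𝓞 F) ∉ v.asIdeal ∧ W.Δ ∉ v.asIdeal
    · have hpos : (0 : ℝ) < nm F v := by exact_mod_cast nm_pos v
      obtain ⟨α, h1, h2, h3⟩ := exists_roots hpos (hasse_v W v h.1 h.2)
      refine ⟨α, fun _ => ⟨h1, ?_, ?_⟩⟩
      · rw [h2]; simp
      · rw [h3]; simp
    · exact ⟨0, fun h' => absurd h' h⟩
  choose α hα using hex
  exact ⟨α, hgood.mono fun v hv => ⟨(hα v hv).1, (hα v hv).2.1, (hα v hv).2.2,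
    hasse_v W v hv.1 hv.2⟩⟩

variable {k : ℕ}

/-- the size of the Euler product and the mean -/
theorem size_prod (W : Fin k → WeierstrassCurve (𝓞 F)) (hΔ : ∀ j, (W j).Δ ≠ 0) (a : Fin k → ℕ)
    {n : ℕ} {ρ : Representation ℂ (GK F) (Fin n → ℂ)} (hopen : Open ρ) (τ : ℝ)
    (B : HeightOneSpectrum (𝓞 F) → ℂ[X])
    (hB : ∀ᶠ v in cofinite, ∀ σ : GK F, IsFrob v σ → ∀ α β : Fin k → ℂ,
      (∀ j, α j + β j = (trv (W j) v : ℂ) ∧ α j * β j = ((nm F v : ℕ) : ℂ)) → ∀ z : ℂ,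
      (B v).eval z = ∏ i ∈ Fintype.piFinset (fun j => Finset.range (a j + 1)),
        LinearMap.det (1 - ((∏ j, α j ^ i j * β j ^ (a j - i j)) * z) • ρ σ⁻¹))
    (hB0 : ∀ v, (B v).eval (((nm F v : ℕ) : ℂ) ^
      (-((((∑ j, a j : ℕ) : ℝ) / 2 : ℝ) + 1 + τ * I : ℂ))) ≠ 0)
    (L : ℂ → ℂ)
    (hL : ∀ s : ℂ, (((∑ j, a j : ℕ) : ℝ) / 2 : ℝ) + 1 < s.re →
      L s = ∏' v, ((B v).eval (((nm F v : ℕ) : ℂ) ^ (-s)))⁻¹)
    (σ : HeightOneSpectrum (𝓞 F) → GK F) (hσ : ∀ v, IsFrob v (σ v)) :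
    (∀ᶠ ε : ℝ in 𝓝[>] 0, L ((((∑ j, a j : ℕ) : ℝ) / 2 : ℝ) + 1 + τ * I + ε) ≠ 0) ∧
    Tendsto (fun ε : ℝ => qt (nm F) (fun v => (∏ j, (Uc (a j)).eval (cosv (W j) v)) *
      vr σ ρ τ v) ε -
      Real.log ‖L ((((∑ j, a j : ℕ) : ℝ) / 2 : ℝ) + 1 + τ * I + ε)‖ / Real.log (1 / ε))
      (𝓝[>] 0) (𝓝 0) := by
  classical
  choose α hα using fun j => roots (W j) (hΔ j)
  set s : Finset (Fin k → ℕ) := Fintype.piFinset (fun j => Finset.range (a j + 1)) with hs'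
  set e := s.equivFin with he
  set w : ℝ := ((∑ j, a j : ℕ) : ℝ) / 2 with hw
  set γ : HeightOneSpectrum (𝓞 F) → (Fin k → ℕ) → ℂ := fun v i =>
    ∏ j, α j v 0 ^ i j * α j v 1 ^ (a j - i j) with hγ
  have hall : ∀ᶠ v in cofinite, ∀ j, (∀ l, ‖α j v l‖ = (nm F v : ℝ) ^ (1 / 2 : ℝ)) ∧
      α j v 0 + α j v 1 = (trv (W j) v : ℂ) ∧ α j v 0 * α j v 1 = ((nm F v : ℕ) : ℂ) ∧
      |(trv (W j) v : ℝ)| ≤ 2 * Real.sqrt (nm F v) := Filter.eventually_all.2 hα
  refine size_corr s.card w (fun v m => γ v (e.symm m)) ?_ (t := fun v =>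
    ∏ j, (Uc (a j)).eval (cosv (W j) v)) ?_ ?_ hopen τ B ?_ hB0 L hL σ hσ
  · filter_upwards [hall] with v hv m
    have hi : ∀ j, (e.symm m : Fin k → ℕ) j ≤ a j := by
      intro j
      have := (Fintype.mem_piFinset.1 (e.symm m).2) j
      rw [Finset.mem_range] at this
      omega
    have h0 : (0 : ℝ) < nm F v := by exact_mod_cast nm_pos v
    rw [hγ]
    simp only [norm_prod, norm_mul, norm_pow]
    have h1 : ∀ j, ‖α j v 0‖ ^ (e.symm m : Fin k → ℕ) j * ‖α j v 1‖ ^ (a j -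
        (e.symm m : Fin k → ℕ) j) = ((nm F v : ℝ) ^ (1 / 2 : ℝ)) ^ (a j) := by
      intro j
      rw [(hv j).1 0, (hv j).1 1, ← pow_add]
      congr 1
      have := hi j
      omega
    rw [Finset.prod_congr rfl fun j _ => h1 j, Finset.prod_pow_eq_pow_sum, ← Real.rpow_natCast,
      ← Real.rpow_mul h0.le, hw]
    congr 1
    push_cast
    ring
  · have := bd_prod (x := fun j v => cosv (W j) v) (fun j v => abs_cosv (W j) v) Finset.univ
      fun j => Uc (a j)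
    exact this
  · filter_upwards [hall] with v hv
    have h0 : (0 : ℝ) < nm F v := by exact_mod_cast nm_pos v
    set r : ℝ := Real.sqrt (nm F v) with hr
    have hr0 : 0 < r := Real.sqrt_pos.2 h0
    have hr2 : r ^ 2 = nm F v := Real.sq_sqrt h0.le
    have h1 : ∑ m, γ v (e.symm m) = ∏ j, hs (α j v 0) (α j v 1) (a j) := by
      rw [Fintype.sum_equiv e.symm (fun m => γ v (e.symm m)) (fun i : s => γ v i) fun _ => rfl]
      rw [Finset.sum_coe_sort s (fun i => γ v i), hγ]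
      simp only [hs]
      exact (Finset.prod_univ_sum (fun j => Finset.range (a j + 1))
        (fun j i => α j v 0 ^ i * α j v 1 ^ (a j - i))).symm
    have h2 : ∀ j, hs (α j v 0) (α j v 1) (a j) =
        ((r ^ (a j) * (Uc (a j)).eval (cosv (W j) v) : ℝ) : ℂ) := by
      intro j
      refine hs_eq ?_ ?_ (a j)
      · rw [(hv j).2.1, cosv, if_pos (hv j).2.2.2, ← hr]
        have : 2 * r * ((trv (W j) v : ℝ) / (2 * r)) = (trv (W j) v : ℝ) := by
          field_simp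
        rw [this]
        push_cast
        rfl
      · rw [(hv j).2.2.1, hr2]
        push_cast
        rfl
    rw [h1, Finset.prod_congr rfl fun j _ => h2 j]
    have h3 : ((nm F v : ℕ) : ℂ) ^ (-((w : ℝ) : ℂ)) = (((nm F v : ℝ) ^ (-w) : ℝ) : ℂ) := by
      rw [Complex.ofReal_cpow h0.le]
      push_cast
      rfl
    rw [h3, ← Complex.ofReal_prod, ← Complex.ofReal_mul, Finset.prod_mul_distrib,
      Finset.prod_pow_eq_pow_sum]
    congr 1
    have h4 : r ^ (∑ j, a j) * (nm F v : ℝ) ^ (-w) = 1 := by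
      rw [hr, Real.sqrt_eq_rpow, ← Real.rpow_natCast, ← Real.rpow_mul h0.le, ← Real.rpow_add h0]
      have : (1 / 2 : ℝ) * ((∑ j, a j : ℕ) : ℝ) + -w = 0 := by
        rw [hw]
        ring
      rw [this, Real.rpow_zero]
    linear_combination (∏ j, (Uc (a j)).eval (cosv (W j) v)) * h4
  · filter_upwards [hall, hB] with v hv h1
    intro g hg z
    rw [h1 g hg (fun j => α j v 0) (fun j => α j v 1) (fun j => ⟨(hv j).2.1, (hv j).2.2.1⟩) z]
    rw [Fintype.prod_equiv e.symm (fun m => LinearMap.det (1 - (γ v (e.symm m) * z) • ρ g⁻¹))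
      (fun i : s => LinearMap.det (1 - (γ v i * z) • ρ g⁻¹)) fun _ => rfl]
    exact (Finset.prod_coe_sort s (fun i => LinearMap.det (1 - (γ v i * z) • ρ g⁻¹))).symm

/-- the mean square of an irreducible character -/
theorem norm_vc_irr {n : ℕ} {ρ : Representation ℂ (GK F) (Fin n → ℂ)} (hopen : Open ρ)
    (hi : ρ.IsIrreducible) (σ : HeightOneSpectrum (𝓞 F) → GK F) (hσ : ∀ v, IsFrob v (σ v))
    (τ : ℝ) {U : Ultrafilter ℝ} (hU : (U : Filter ℝ) ≤ 𝓝[>] 0) :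
    (M (nm F) U fun v => ‖vc σ ρ τ v‖ ^ 2) = 1 := by
  obtain ⟨V, _, _, hV, hVρ⟩ := hopen.ker
  have h1 := Pool.Agent.Y677.SM.herm_lim V hV σ hσ ρ (fun u hu => (hVρ u).1 hu) τ ρ
    (fun u hu => (hVρ u).1 hu) τ
  have h2 : Pool.Agent.Y677.SM.herm ρ τ ρ τ = 1 := by
    unfold Pool.Agent.Y677.SM.herm
    rw [if_pos rfl, finrank_end_irr ρ hi]
    norm_num
  rw [h2] at h1
  refine M_of_tendsto hU (h1.congr fun ε => ?_)
  unfold qt
  congr 2
  funext v
  rw [Complex.mul_conj, Complex.ofReal_re, Complex.normSq_eq_norm_sq]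
  unfold vc Pool.Agent.W353.L1.zz
  rw [mul_comm]

/-- finitely many values -/
theorem fin_vc {n : ℕ} {ρ : Representation ℂ (GK F) (Fin n → ℂ)} (hopen : Open ρ)
    (σ : HeightOneSpectrum (𝓞 F) → GK F) (τ : ℝ) :
    ∃ V : Finset ℝ, ∀ v, ‖vc σ ρ τ v‖ ^ 2 ∈ V := by
  classical
  obtain ⟨V, _, _, hV, hVρ⟩ := hopen.ker
  have hρ : ∀ u ∈ V, ρ u = 1 := fun u hu => (hVρ u).1 hu
  let _ : Fintype (GK F ⧸ V) := Fintype.ofFinite _
  refine ⟨Finset.univ.image fun q : GK F ⧸ V => ‖(qrep V ρ hρ).character q‖ ^ 2, fun v => ?_⟩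
  rw [Finset.mem_image]
  refine ⟨QuotientGroup.mk (σ v)⁻¹, Finset.mem_univ _, ?_⟩
  have h1 : (qrep V ρ hρ).character (QuotientGroup.mk (σ v)⁻¹) = ρ.character (σ v)⁻¹ := rfl
  rw [h1]
  unfold vc
  rw [norm_mul, norm_cpow_I (nm_pos v), one_mul]

/-- one-dimensional representations -/
theorem norm_vc_one {ρ : Representation ℂ (GK F) (Fin 1 → ℂ)} (hopen : Open ρ)
    (σ : HeightOneSpectrum (𝓞 F) → GK F) (τ : ℝ) (v : HeightOneSpectrum (𝓞 F)) :
    ‖vc σ ρ τ v‖ = 1 := by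
  obtain ⟨V, _, _, hV, hVρ⟩ := hopen.ker
  have hρ : ∀ u ∈ V, ρ u = 1 := fun u hu => (hVρ u).1 hu
  have htr : ∀ A B : Module.End ℂ (Fin 1 → ℂ), LinearMap.trace ℂ _ (A * B) =
      LinearMap.trace ℂ _ A * LinearMap.trace ℂ _ B := by
    intro A B
    have h : ∀ A : Module.End ℂ (Fin 1 → ℂ), LinearMap.trace ℂ _ A =
        LinearMap.toMatrix' A 0 0 := by
      intro A
      rw [LinearMap.trace_eq_matrix_trace ℂ (Pi.basisFun ℂ (Fin 1)), Matrix.trace,
        Fin.sum_univ_one]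
      rfl
    rw [h, h, h, LinearMap.toMatrix'_mul, Matrix.mul_apply, Fin.sum_univ_one]
  set g := (σ v)⁻¹ with hg
  have h1 : ρ.character g * ρ.character g⁻¹ = 1 := by
    unfold Representation.character
    rw [← htr, ← map_mul, mul_inv_cancel, map_one, LinearMap.trace_one]
    simp
  have h2 := char_conj_eq V ρ hρ g
  have h3 : ρ.character g⁻¹ = conj (ρ.character g) := by
    rw [← h2, Complex.conj_conj]
  rw [h3, Complex.mul_conj, Complex.normSq_eq_norm_sq] at h1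
  have h4 : ‖ρ.character g‖ ^ 2 = 1 := by exact_mod_cast h1
  unfold vc
  rw [norm_mul, norm_cpow_I (nm_pos v), one_mul, ← hg]
  exact (pow_eq_one_iff_of_nonneg (norm_nonneg _) (by norm_num)).1 h4

end

end Pool.Agent.Y792.EP
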