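import Pool.Agent.Y792.EP.Core

/-! Products of symmetric powers of elliptic curves and Artin representations: the main theorem. -/

set_option autoImplicit false

namespace Pool.Agent.Y792.EP

open Complex Filter Topology ComplexConjugate Pool.Agent.H341R2 NumberField IsDedekindDomain
  Pool.Agent.W401.Cheb Polynomial Pool.Agent.W540.BE Pool.Agent.TH553.RS

set_option linter.unusedSectionVars false

/-- a function all of whose limits along ultrafilters are less than one in absolute value -/
theorem uniform_lt {f : ℝ → ℝ} (h : ∀ U : Ultrafilter ℝ, (U : Filter ℝ) ≤ 𝓝[>] 0 →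
    ∃ c, |c| < 1 ∧ Tendsto f U (𝓝 c)) :
    ∃ κ : ℝ, κ < 1 ∧ ∀ᶠ ε in 𝓝[>] (0 : ℝ), |f ε| ≤ κ := by
  by_contra hcon
  push Not at hcon
  have h1 : ∀ n : ℕ, ∃ᶠ ε in 𝓝[>] (0 : ℝ), 1 - 1 / ((n : ℝ) + 1) < |f ε| := by
    intro n
    have h2 := hcon (1 - 1 / ((n : ℝ) + 1)) (by
      have : (0 : ℝ) < 1 / ((n : ℝ) + 1) := by positivity
      linarith)
    exact h2
  set G : ℕ → Filter ℝ := fun n => 𝓝[>] (0 : ℝ) ⊓ 𝓟 {ε | 1 - 1 / ((n : ℝ) + 1) < |f ε|} with hG
  have hne : ∀ n, (G n).NeBot := fun n => by
    rw [hG]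
    exact Filter.frequently_mem_iff_neBot.1 (h1 n)
  have hanti : Antitone G := by
    intro m n hmn
    rw [hG]
    refine inf_le_inf le_rfl (Filter.principal_mono.2 fun ε hε => ?_)
    have h3 : (1 : ℝ) / ((n : ℝ) + 1) ≤ 1 / ((m : ℝ) + 1) :=
      one_div_le_one_div_of_le (by positivity) (by
        have : (m : ℝ) ≤ n := by exact_mod_cast hmn
        linarith)
    have h4 : 1 - 1 / ((n : ℝ) + 1) < |f ε| := hε
    change 1 - 1 / ((m : ℝ) + 1) < |f ε|
    linarith
  have hne2 : (⨅ n, G n).NeBot := Filter.iInf_neBot_of_directed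
    (fun m n => ⟨max m n, hanti (le_max_left _ _), hanti (le_max_right _ _)⟩) hne
  obtain ⟨U, hU⟩ := Ultrafilter.exists_le (⨅ n, G n)
  have hU0 : (U : Filter ℝ) ≤ 𝓝[>] 0 := (hU.trans (iInf_le G 0)).trans inf_le_left
  obtain ⟨c, hc, hlim⟩ := h U hU0
  have h5 : ∀ n : ℕ, 1 - 1 / ((n : ℝ) + 1) ≤ |c| := by
    intro n
    refine ge_of_tendsto hlim.abs ?_
    have h6 : (U : Filter ℝ) ≤ 𝓟 {ε | 1 - 1 / ((n : ℝ) + 1) < |f ε|} :=
      (hU.trans (iInf_le G n)).trans inf_le_right
    filter_upwards [Filter.le_principal_iff.1 h6] with ε hε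
    exact le_of_lt hε
  have h7 : Tendsto (fun n : ℕ => 1 - 1 / ((n : ℝ) + 1)) atTop (𝓝 (1 - 0)) :=
    tendsto_const_nhds.sub tendsto_one_div_add_atTop_nhds_zero_nat
  have h8 := le_of_tendsto h7 (Filter.Eventually.of_forall h5)
  linarith

section
variable {F : Type} [Field F] [NumberField F] {k : ℕ}

/-- the support -/
def sp (b : Fin k → ℕ) : Finset (Fin k) := Finset.univ.filter fun j => b j ≠ 0

theorem prod_sp {x : Fin k → ℝ} (b : Fin k → ℕ) :
    ∏ j, (Uc (b j)).eval (x j) = ∏ j ∈ sp b, (Uc (b j)).eval (x j) := by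
  refine (Finset.prod_subset (Finset.subset_univ _) fun j _ hj => ?_).symm
  have : b j = 0 := by
    by_contra h
    exact hj (Finset.mem_filter.2 ⟨Finset.mem_univ _, h⟩)
  rw [this, Uc_zero, eval_one]

variable {N : HeightOneSpectrum (𝓞 F) → ℕ} {U : Ultrafilter ℝ}
  {x : Fin k → HeightOneSpectrum (𝓞 F) → ℝ}

/-- the characters with fewer factors are free if their means are integers -/
theorem free_of_int (hN : Sys N) (hU : (U : Filter ℝ) ≤ 𝓝[>] 0) (hx : ∀ j v, |x j v| ≤ 1)
    (hS : ∀ j, ST1 N (x j)) (hJ : ∀ i j, i ≠ j → JT N (x i) (x j)) (S : Finset (Fin k))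
    (hF : ∀ b : Fin k → ℕ, sp b ⊂ S → 3 ≤ (sp b).card →
      ∃ m : ℤ, (M N U fun v => ∏ j, (Uc (b j)).eval (x j v)) = m) :
    ∀ T : Finset (Fin k), T ⊂ S → Free N U x T := by
  classical
  intro T
  induction T using Finset.strongInduction with
  | H T ih =>
    intro hTS b hb
    set T' := T.filter fun j => b j ≠ 0 with hT'
    have e0 : (fun v => ∏ j ∈ T, (Uc (b j)).eval (x j v)) =
        fun v => ∏ j ∈ T', (Uc (b j)).eval (x j v) := by
      funext v
      refine (Finset.prod_subset (Finset.filter_subset _ _) fun j hj hj' => ?_).symm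
      have : b j = 0 := by
        by_contra h
        exact hj' (Finset.mem_filter.2 ⟨hj, h⟩)
      rw [this, Uc_zero, eval_one]
    rw [e0]
    obtain ⟨j0, hj0, hbj0⟩ := hb
    have hj0' : j0 ∈ T' := Finset.mem_filter.2 ⟨hj0, hbj0⟩
    by_cases hTT : T' = T
    · -- all exponents are nonzero
      have hall : ∀ j ∈ T, b j ≠ 0 := fun j hj => by
        rw [← hTT] at hj
        exact (Finset.mem_filter.1 hj).2
      rw [hTT]
      rcases Nat.lt_or_ge T.card 3 with hc | hc
      · have hc0 : 0 < T.card := Finset.card_pos.2 ⟨j0, hj0⟩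
        interval_cases hcc : T.card
        · obtain ⟨i, rfl⟩ := Finset.card_eq_one.1 hcc
          exact free_single hN hU hx hS i b ⟨i, Finset.mem_singleton_self _,
            hall i (Finset.mem_singleton_self _)⟩
        · obtain ⟨i, j, hij, rfl⟩ := Finset.card_eq_two.1 hcc
          exact free_pair hN hU hx hJ hij b ⟨i, Finset.mem_insert_self _ _,
            hall i (Finset.mem_insert_self _ _)⟩
      · set b' : Fin k → ℕ := fun j => if j ∈ T then b j else 0 with hb'
        have hsp : sp b' = T := by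
          ext j
          simp only [sp, Finset.mem_filter, Finset.mem_univ, true_and, hb']
          constructor
          · intro h
            by_contra h'
            rw [if_neg h'] at h
            exact h rfl
          · intro h
            rw [if_pos h]
            exact hall j h
        obtain ⟨m, hm⟩ := hF b' (by rw [hsp]; exact hTS) (by rw [hsp]; exact hc)
        have e1 : (fun v => ∏ j, (Uc (b' j)).eval (x j v)) =
            fun v => ∏ j ∈ T, (Uc (b j)).eval (x j v) := by
          funext v
          rw [prod_sp, hsp]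
          refine Finset.prod_congr rfl fun j hj => ?_
          rw [hb']
          simp only
          rw [if_pos hj]
        rw [e1] at hm
        obtain ⟨i, j, hi, hj, hij⟩ : ∃ i j, i ∈ T ∧ j ∈ T ∧ i ≠ j := by
          obtain ⟨i, hi, j, hj, hij⟩ := Finset.one_lt_card.1 (by omega : 1 < T.card)
          exact ⟨i, j, hi, hj, hij⟩
        have her : ∀ i ∈ T, Free N U x (T.erase i) := fun i hi =>
          ih _ (Finset.erase_ssubset hi) ((Finset.erase_subset _ _).trans_ssubset hTS)
        have hlt := split_lt hN hU hx hJ hij hi hj b (hall i hi)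
          (free_single hN hU hx hS i) (free_single hN hU hx hS j) (her i hi) (her j hj)
          (z := fun _ => 1) (fun _ => by simp)
        simp only [Complex.one_re, mul_one] at hlt
        rw [hm] at hlt ⊢
        have h1 : |m| < 1 := by exact_mod_cast hlt
        have h2 : m = 0 := Int.abs_lt_one_iff.1 h1
        rw [h2]
        simp
    · have hss : T' ⊂ T := lt_of_le_of_ne (Finset.filter_subset _ _) hTT
      exact ih T' hss (hss.trans hTS) b ⟨j0, hj0', hbj0⟩

/-- **The strict inequality.** -/
theorem strict (hN : Sys N) (hU : (U : Filter ℝ) ≤ 𝓝[>] 0) (hx : ∀ j v, |x j v| ≤ 1)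
    (hS : ∀ j, ST1 N (x j)) (hJ : ∀ i j, i ≠ j → JT N (x i) (x j)) (a : Fin k → ℕ)
    (ha : ∃ j, a j ≠ 0) {z : HeightOneSpectrum (𝓞 F) → ℂ} (hzb : Bd fun v => ‖z v‖)
    (hz2 : (M N U fun v => ‖z v‖ ^ 2) ≤ 1) {V : Finset ℝ} (hV : ∀ v, ‖z v‖ ^ 2 ∈ V)
    (hcase : (sp a).card ≤ 2 ∨ ((sp a).card ≤ 4 ∧ ∀ v, ‖z v‖ = 1) ∨
      ((∀ v, ‖z v‖ = 1) ∧ ∀ b : Fin k → ℕ, sp b ⊂ sp a → 3 ≤ (sp b).card →
        ∃ m : ℤ, (M N U fun v => ∏ j, (Uc (b j)).eval (x j v)) = m)) :
    |M N U fun v => (∏ j, (Uc (a j)).eval (x j v)) * (z v).re| < 1 := by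
  classical
  have hmem : ∀ j, j ∈ sp a ↔ a j ≠ 0 := fun j => by simp [sp]
  have hne : (sp a).Nonempty := by
    obtain ⟨j, hj⟩ := ha
    exact ⟨j, (hmem j).2 hj⟩
  have hc0 : 0 < (sp a).card := Finset.card_pos.2 hne
  simp only [prod_sp a]
  by_cases h2 : (sp a).card ≤ 2
  · interval_cases hcc : (sp a).card
    · obtain ⟨i, hi⟩ := Finset.card_eq_one.1 hcc
      have hai : a i ≠ 0 := (hmem i).1 (by rw [hi]; exact Finset.mem_singleton_self _)
      simp only [hi, Finset.prod_singleton]
      have hn := norm_multi hN hU hx (free_single hN hU hx hS i) a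
      simp only [Finset.prod_singleton] at hn
      have h3 := fin_lt hN hU hx (p := Uc (a i)) (q := 1) (i := i) (j := i)
        (fun n => by
          simp only [one_pow, eval_one, mul_one, Ist_one]
          exact mean_one hN hU (hx i) (hS i) _) (by rw [Uc_natDegree]; omega) one_ne_zero
        (by simp only [eval_one, mul_one]; exact hn.le) hzb hz2 hV
      simpa only [eval_one, mul_one] using h3
    · obtain ⟨i, j, hij, hi⟩ := Finset.card_eq_two.1 hcc
      have hai : a i ≠ 0 := (hmem i).1 (by rw [hi]; exact Finset.mem_insert_self _ _)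
      simp only [hi, Finset.prod_pair hij]
      have hn := norm_multi hN hU hx (free_pair hN hU hx hJ hij) a
      simp only [Finset.prod_pair hij] at hn
      exact fin_lt hN hU hx (p := Uc (a i)) (q := Uc (a j)) (i := i) (j := j)
        (fun n => mean_two hN hU (hx i) (hx j) (hJ i j hij) _ _)
        (by rw [Uc_natDegree]; omega) (Chebyshev.U_ne_zero ℝ _ (by omega)) hn.le hzb hz2 hV
  · push Not at h2
    have hpairs : ∀ {i j : Fin k}, i ≠ j → Free N U x {i, j} := fun h =>
      free_pair hN hU hx hJ h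
    rcases hcase with h | h | h
    · omega
    · obtain ⟨h4, hz⟩ := h
      interval_cases hcc : (sp a).card
      · obtain ⟨i, j, l, hij, hil, hjl, hi⟩ := Finset.card_eq_three.1 hcc
        have hai : a i ≠ 0 := (hmem i).1 (by rw [hi]; simp)
        have e1 : (sp a).erase i = {j, l} := by
          rw [hi]
          ext t
          simp only [Finset.mem_erase, Finset.mem_insert, Finset.mem_singleton]
          constructor
          · rintro ⟨h1, h2 | h2 | h2⟩
            · exact absurd h2 h1
            · exact Or.inl h2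
            · exact Or.inr h2
          · rintro (rfl | rfl)
            · exact ⟨hij.symm, Or.inr (Or.inl rfl)⟩
            · exact ⟨hil.symm, Or.inr (Or.inr rfl)⟩
        have e2 : (sp a).erase j = {i, l} := by
          rw [hi]
          ext t
          simp only [Finset.mem_erase, Finset.mem_insert, Finset.mem_singleton]
          constructor
          · rintro ⟨h1, h2 | h2 | h2⟩
            · exact Or.inl h2
            · exact absurd h2 h1
            · exact Or.inr h2
          · rintro (rfl | rfl)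
            · exact ⟨hij, Or.inl rfl⟩
            · exact ⟨hjl.symm, Or.inr (Or.inr rfl)⟩
        exact split_lt hN hU hx hJ hij (by rw [hi]; simp) (by rw [hi]; simp) a hai
          (free_single hN hU hx hS i) (free_single hN hU hx hS j)
          (by rw [e1]; exact hpairs hjl) (by rw [e2]; exact hpairs hil) hz
      · obtain ⟨i, j, l, m, hij, hil, him, hjl, hjm, hlm, hi⟩ :=
          Finset.card_eq_four.1 hcc
        have hai : a i ≠ 0 := (hmem i).1 (by rw [hi]; simp)
        have h5 := four_lt hN hU hx hJ hij hil him hjl hjm hlm a hai hz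
        have e3 : (fun v => (∏ j ∈ sp a, (Uc (a j)).eval (x j v)) * (z v).re) =
            fun v => ((Uc (a i)).eval (x i v) * (Uc (a j)).eval (x j v) *
      (Uc (a l)).eval (x l v) * (Uc (a m)).eval (x m v)) * (z v).re := by
          funext v
          rw [hi, Finset.prod_insert (by simp [hij, hil, him]),
            Finset.prod_insert (by simp [hjl, hjm]), Finset.prod_pair hlm]
          ring
        rw [e3]
        exact h5
    · obtain ⟨hz, hF⟩ := h
      have hfree := free_of_int hN hU hx hS hJ (sp a) hF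
      obtain ⟨i, hi, j, hj, hij⟩ := Finset.one_lt_card.1 (by omega : 1 < (sp a).card)
      exact split_lt hN hU hx hJ hij hi hj a ((hmem i).1 hi)
        (free_single hN hU hx hS i) (free_single hN hU hx hS j)
        (hfree _ (Finset.erase_ssubset hi)) (hfree _ (Finset.erase_ssubset hj)) hz

end

end Pool.Agent.Y792.EP
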