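import Pool.Agent.Y792.EP.Cheb

/-! Null functions and the cases of equality in the Cauchy-Schwarz inequality. -/

set_option autoImplicit false

namespace Pool.Agent.Y792.EP

open Filter Topology Polynomial Pool.Agent.W540.BE Pool.Agent.TH553.RS

set_option linter.unusedSectionVars false

variable {P : Type*} {N : P → ℕ} {U : Ultrafilter ℝ}

variable (N U) in
/-- null functions -/
def Nl (φ : P → ℝ) : Prop := Bd φ ∧ (M N U fun p => φ p ^ 2) = 0

section
variable (hN : Sys N) (hU : (U : Filter ℝ) ≤ 𝓝[>] 0)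

include hN hU

theorem Nl.of_le {φ ψ : P → ℝ} (h : Nl N U φ) (hψ : Bd ψ) {C : ℝ}
    (hle : ∀ p, ψ p ^ 2 ≤ C * φ p ^ 2) : Nl N U ψ := by
  refine ⟨hψ, le_antisymm ?_ (M_nonneg hN hU hψ.sq fun p => sq_nonneg _)⟩
  have h1 := M_mono hN hU hψ.sq (h.1.sq.const_mul C) hle
  rw [M_const_mul hN hU h.1.sq, h.2, mul_zero] at h1
  exact h1

theorem Nl.mul {φ ψ : P → ℝ} (h : Nl N U φ) (hψ : Bd ψ) : Nl N U fun p => φ p * ψ p := by
  obtain ⟨B, hB⟩ := hψ
  refine h.of_le hN hU (h.1.mul ⟨B, hB⟩) (C := B ^ 2) fun p => ?_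
  have h1 : ψ p ^ 2 ≤ B ^ 2 := sq_le_sq' (by linarith [(abs_le.1 (hB p)).1]) (abs_le.1 (hB p)).2
  have h2 := sq_nonneg (φ p)
  nlinarith

theorem Nl.add {φ ψ : P → ℝ} (h : Nl N U φ) (h' : Nl N U ψ) : Nl N U fun p => φ p + ψ p := by
  refine ⟨h.1.add h'.1, le_antisymm ?_ (M_nonneg hN hU (h.1.add h'.1).sq fun p => sq_nonneg _)⟩
  have h1 := M_mono hN hU (h.1.add h'.1).sq ((h.1.sq.const_mul 2).add (h'.1.sq.const_mul 2))
    fun p => by nlinarith [sq_nonneg (φ p - ψ p)]
  rw [M_add hN hU (h.1.sq.const_mul 2) (h'.1.sq.const_mul 2), M_const_mul hN hU h.1.sq,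
    M_const_mul hN hU h'.1.sq, h.2, h'.2] at h1
  simpa using h1

theorem Nl.const_mul {φ : P → ℝ} (h : Nl N U φ) (c : ℝ) : Nl N U fun p => c * φ p := by
  have := h.mul hN hU (Bd.const c)
  simpa [mul_comm] using this

theorem Nl.sub {φ ψ : P → ℝ} (h : Nl N U φ) (h' : Nl N U ψ) : Nl N U fun p => φ p - ψ p := by
  have := h.add hN hU (h'.const_mul hN hU (-1))
  refine (congrArg (Nl N U) (funext fun p => ?_)).mp this
  ring

/-- bounded complex functions -/
theorem bd_re {B : P → ℂ} (h : Bd fun p => ‖B p‖) : Bd fun p => (B p).re := by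
  obtain ⟨C, hC⟩ := h
  exact ⟨C, fun p => (Complex.abs_re_le_norm _).trans ((le_abs_self _).trans (hC p))⟩

theorem bd_im {B : P → ℂ} (h : Bd fun p => ‖B p‖) : Bd fun p => (B p).im := by
  obtain ⟨C, hC⟩ := h
  exact ⟨C, fun p => (Complex.abs_im_le_norm _).trans ((le_abs_self _).trans (hC p))⟩

/-- **The case of equality.** -/
theorem ext2 {A : P → ℝ} {B : P → ℂ} (hA : Bd A) (hB : Bd fun p => ‖B p‖)
    (hA2 : (M N U fun p => A p ^ 2) ≤ 1) (hB2 : (M N U fun p => ‖B p‖ ^ 2) ≤ 1) {c : ℝ}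
    (hc : (M N U fun p => A p * (B p).re) = c) (h1 : 1 ≤ |c|) :
    c ^ 2 = 1 ∧ Nl N U (fun p => A p - c * (B p).re) ∧ Nl N U fun p => (B p).im := by
  have hr := bd_re hN hU hB
  have hi := bd_im hN hU hB
  have e1 : (fun p => ‖B p‖ ^ 2) = fun p => (B p).re ^ 2 + (B p).im ^ 2 := by
    funext p
    rw [← Complex.normSq_eq_norm_sq, Complex.normSq_apply]
    ring
  rw [e1, M_add hN hU hr.sq hi.sq] at hB2
  have h2 := M_cs hN hU hA hr
  rw [hc] at h2
  have h3 : 0 ≤ M N U fun p => (B p).im ^ 2 := M_nonneg hN hU hi.sq fun p => sq_nonneg _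
  have h4 : 0 ≤ M N U fun p => (B p).re ^ 2 := M_nonneg hN hU hr.sq fun p => sq_nonneg _
  have h5 : 0 ≤ M N U fun p => A p ^ 2 := M_nonneg hN hU hA.sq fun p => sq_nonneg _
  have h6 : 1 ≤ c ^ 2 := by
    rw [← sq_abs]
    nlinarith
  have h7 : (M N U fun p => (B p).re ^ 2) = 1 := by nlinarith
  have h8 : (M N U fun p => A p ^ 2) = 1 := by nlinarith
  have h9 : (M N U fun p => (B p).im ^ 2) = 0 := by linarith
  have h10 : c ^ 2 = 1 := by nlinarith
  refine ⟨h10, ⟨hA.sub (hr.const_mul c), ?_⟩, ⟨hi, h9⟩⟩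
  have e2 : (fun p => (A p - c * (B p).re) ^ 2) =
      fun p => (A p ^ 2 + (-(2 * c)) * (A p * (B p).re)) + (c ^ 2) * (B p).re ^ 2 := by
    funext p
    ring
  rw [e2, M_add hN hU (hA.sq.add ((hA.mul hr).const_mul _)) (hr.sq.const_mul _),
    M_add hN hU hA.sq ((hA.mul hr).const_mul _), M_const_mul hN hU (hA.mul hr),
    M_const_mul hN hU hr.sq, hc, h7, h8]
  nlinarith

end

/-- a polynomial has a non-root -/
theorem exists_ne {r : ℝ[X]} (hr : r ≠ 0) : ∃ a ∈ Set.Ioo (-1 : ℝ) 1, r.eval a ≠ 0 := by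
  by_contra hcon
  push Not at hcon
  refine hr (Polynomial.eq_zero_of_infinite_isRoot r ?_)
  exact (Set.Ioo_infinite (by norm_num : (-1 : ℝ) < 1)).mono fun a ha => hcon a ha

section
variable (hN : Sys N) (hU : (U : Filter ℝ) ≤ 𝓝[>] 0) {x y : P → ℝ} (hx : ∀ v, |x v| ≤ 1)
  (hy : ∀ v, |y v| ≤ 1)

include hN hU hx hy

/-- the squares are not close to a function with finitely many values -/
theorem no_fin {p q : ℝ[X]}
    (hm : ∀ j : ℕ, (M N U fun v => (p ^ j).eval (x v) * (q ^ j).eval (y v)) =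
      Ist (p ^ j) * Ist (q ^ j))
    (hp : 0 < p.natDegree) (hq : q ≠ 0) {g : P → ℝ} {V : Finset ℝ} (hg : ∀ v, g v ∈ V)
    (h : Nl N U fun v => (p.eval (x v) * q.eval (y v)) ^ 2 - g v) : False := by
  classical
  set Q : ℝ[X] := ∏ w ∈ V, (X - C w) with hQ
  have hQ0 : Q ≠ 0 := (monic_prod_of_monic V _ fun w _ => monic_X_sub_C w).ne_zero
  obtain ⟨b, hb, hqb⟩ := exists_ne hq
  have hcomp : Q.comp ((C (q.eval b) * p) ^ 2) ≠ 0 := by
    intro h0
    rw [comp_eq_zero_iff] at h0
    rcases h0 with h0 | ⟨-, h0⟩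
    · exact hQ0 h0
    · have h1 := congrArg natDegree h0
      rw [natDegree_C, natDegree_pow, natDegree_C_mul hqb] at h1
      omega
  obtain ⟨a, ha, hab⟩ := exists_ne hcomp
  rw [eval_comp, eval_pow, eval_mul, eval_C] at hab
  have hexp : ∀ s t : ℝ, Q.eval ((p.eval s * q.eval t) ^ 2) =
      ∑ j ∈ Finset.range (Q.natDegree + 1),
        (C (Q.coeff j) * p ^ (2 * j)).eval s * (q ^ (2 * j)).eval t := by
    intro s t
    rw [eval_eq_sum_range]
    refine Finset.sum_congr rfl fun j _ => ?_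
    rw [eval_mul, eval_C, eval_pow, eval_pow]
    ring
  have hpos := pos_gen hN hU hx hy (Finset.range (Q.natDegree + 1))
    (fun j => C (Q.coeff j) * p ^ (2 * j)) (fun j => q ^ (2 * j))
    (fun k _ l _ => by
      have e1 : C (Q.coeff k) * p ^ (2 * k) * (C (Q.coeff l) * p ^ (2 * l)) =
          (Q.coeff k * Q.coeff l) • p ^ (2 * (k + l)) := by
        rw [smul_eq_C_mul, C_mul, mul_add, pow_add]
        ring
      have e2 : q ^ (2 * k) * q ^ (2 * l) = q ^ (2 * (k + l)) := by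
        rw [mul_add, pow_add]
      rw [e1, e2, Ist_smul, mul_assoc, ← hm (2 * (k + l)),
        ← M_const_mul hN hU ((bd_eval hx _).mul (bd_eval hy _))]
      congr 1
      funext v
      rw [eval_smul, smul_eq_mul]
      ring) (a := a) (b := b) ha hb (by
      rw [← hexp, mul_comm]
      exact hab)
  obtain ⟨D, hD⟩ : ∃ D : ℝ, ∀ v, ∀ W ⊆ V,
      |∏ w ∈ W, ((p.eval (x v) * q.eval (y v)) ^ 2 - w)| ≤ D := by
    obtain ⟨D1, hD1⟩ := ((bd_eval hx p).mul (bd_eval hy q)).sq
    refine ⟨∏ w ∈ V, (|D1| + |w| + 1), fun v W hW => ?_⟩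
    rw [Finset.abs_prod]
    calc ∏ w ∈ W, |(p.eval (x v) * q.eval (y v)) ^ 2 - w| ≤ ∏ w ∈ W, (|D1| + |w| + 1) := by
          refine Finset.prod_le_prod (fun _ _ => abs_nonneg _) fun w _ => ?_
          have h1 := hD1 v
          have h2 := abs_sub ((p.eval (x v) * q.eval (y v)) ^ 2) w
          have h3 := le_abs_self D1
          linarith
      _ ≤ ∏ w ∈ V, (|D1| + |w| + 1) := by
          rw [← Finset.prod_sdiff hW]
          refine le_mul_of_one_le_left (Finset.prod_nonneg fun w _ => by positivity) ?_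
          refine Finset.prod_induction _ (fun t : ℝ => 1 ≤ t)
            (fun a b h1 h2 => one_le_mul_of_one_le_of_one_le h1 h2) le_rfl fun w _ => ?_
          have h1 := abs_nonneg D1
          have h2 := abs_nonneg w
          linarith
  have hnull := h.of_le hN hU (ψ := fun v => Q.eval ((p.eval (x v) * q.eval (y v)) ^ 2))
    (by
      refine ⟨D, fun v => ?_⟩
      simp only [hQ, eval_prod, eval_sub, eval_X, eval_C]
      exact hD v V (Finset.Subset.refl _)) (C := D ^ 2) (fun v => by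
      have e : Q.eval ((p.eval (x v) * q.eval (y v)) ^ 2) =
          ((p.eval (x v) * q.eval (y v)) ^ 2 - g v) *
            ∏ w ∈ V.erase (g v), ((p.eval (x v) * q.eval (y v)) ^ 2 - w) := by
        rw [hQ, eval_prod]
        simp only [eval_sub, eval_X, eval_C]
        exact (Finset.mul_prod_erase V _ (hg v)).symm
      rw [e, mul_pow, mul_comm]
      refine mul_le_mul_of_nonneg_right ?_ (sq_nonneg _)
      have h1 := hD v (V.erase (g v)) (Finset.erase_subset _ _)
      exact sq_le_sq' (by linarith [(abs_le.1 h1).1]) (abs_le.1 h1).2)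
  have h0 := hnull.2
  have e : (fun v => (Q.eval ((p.eval (x v) * q.eval (y v)) ^ 2)) ^ 2) =
      fun v => (∑ j ∈ Finset.range (Q.natDegree + 1),
        (C (Q.coeff j) * p ^ (2 * j)).eval (x v) * (q ^ (2 * j)).eval (y v)) ^ 2 := by
    funext v
    rw [hexp]
  rw [e] at h0
  linarith

/-- two independent nonconstant functions do not have the same square -/
theorem no_eq (hJ : JT N x y) {p q : ℝ[X]} (hp : 0 < p.natDegree)
    (h : Nl N U fun v => p.eval (x v) ^ 2 - q.eval (y v) ^ 2) : False := by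
  have h1 : (p ^ 2 - C (q.eval 0 ^ 2)) ≠ 0 := by
    intro h0
    have h2 := congrArg natDegree (sub_eq_zero.1 h0)
    rw [natDegree_C, natDegree_pow] at h2
    omega
  obtain ⟨a, ha, hab⟩ := exists_ne h1
  rw [eval_sub, eval_pow, eval_C] at hab
  have h3 := pos_two hN hU hx hy hJ (Finset.univ : Finset Bool)
    (fun b => if b then p ^ 2 else -1) (fun b => if b then 1 else q ^ 2) (a := a) (b := 0) ha
    (by norm_num) (by
      simp only [Fintype.univ_bool, Finset.mem_singleton, Bool.true_eq_false,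
        not_false_eq_true, Finset.sum_insert, if_true, Finset.sum_singleton]
      simpa [sub_eq_add_neg] using hab)
  have h4 := h.2
  have e : (fun v => (p.eval (x v) ^ 2 - q.eval (y v) ^ 2) ^ 2) = fun v =>
      (∑ k : Bool, (if k then p ^ 2 else -1 : ℝ[X]).eval (x v) *
        (if k then 1 else q ^ 2 : ℝ[X]).eval (y v)) ^ 2 := by
    funext v
    simp [sub_eq_add_neg]
  rw [e] at h4
  linarith

/-- the variant with the product -/
theorem no_eq_mul (hJ : JT N x y) {p q : ℝ[X]} (hp : 0 < p.natDegree) (hq : q ≠ 0)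
    (h : Nl N U fun v => (p.eval (x v) ^ 2 - q.eval (y v) ^ 2) *
      (p.eval (x v) * q.eval (y v))) : False := by
  obtain ⟨b, hb, hqb⟩ := exists_ne hq
  have h1 : (p ^ 2 - C (q.eval b ^ 2)) * p ≠ 0 := by
    refine mul_ne_zero ?_ (fun h0 => by rw [h0, natDegree_zero] at hp; omega)
    intro h0
    have h2 := congrArg natDegree (sub_eq_zero.1 h0)
    rw [natDegree_C, natDegree_pow] at h2
    omega
  obtain ⟨a, ha, hab⟩ := exists_ne h1
  rw [eval_mul, eval_sub, eval_pow, eval_C] at hab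
  have h3 := pos_two hN hU hx hy hJ (Finset.univ : Finset Bool)
    (fun b => if b then p ^ 3 else -p) (fun b => if b then q else q ^ 3) (a := a) (b := b) ha hb
    (by
      have e : (∑ k : Bool, (if k then p ^ 3 else -p : ℝ[X]).eval a *
        (if k then q else q ^ 3 : ℝ[X]).eval b) =
          ((p.eval a ^ 2 - q.eval b ^ 2) * p.eval a) * q.eval b := by
        simp only [Fintype.sum_bool, if_true, Bool.false_eq_true, if_false, eval_pow, eval_neg]
        ring
      rw [e]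
      exact mul_ne_zero hab hqb)
  have h4 := h.2
  have e : (fun v => ((p.eval (x v) ^ 2 - q.eval (y v) ^ 2) *
      (p.eval (x v) * q.eval (y v))) ^ 2) = fun v =>
      (∑ k : Bool, (if k then p ^ 3 else -p : ℝ[X]).eval (x v) *
        (if k then q else q ^ 3 : ℝ[X]).eval (y v)) ^ 2 := by
    funext v
    simp only [Fintype.sum_bool, if_true, Bool.false_eq_true, if_false, eval_pow, eval_neg]
    ring
  rw [e] at h4
  linarith

end

end Pool.Agent.Y792.EP
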