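import Pool.Agent.Y792.EP.Null

/-! The strict inequality for the means of products of characters of several copies of `SU(2)`. -/

set_option autoImplicit false

namespace Pool.Agent.Y792.EP

open Filter Topology Polynomial MeasureTheory Pool.Agent.W540.BE Pool.Agent.TH553.RS

set_option linter.unusedSectionVars false

theorem Ist_zero : Ist 0 = 0 := by
  have := Ist_smul 0 0
  simpa using this

theorem Ist_one : Ist 1 = 1 := by
  have := Ist_Uc 0
  rwa [Uc_zero, if_pos rfl] at this

theorem Ist_C (c : ℝ) : Ist (C c) = c := by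
  have := Ist_smul c 1
  rw [Ist_one, mul_one, smul_eq_C_mul, mul_one] at this
  exact this

theorem Ist_Uc_sq (n : ℕ) : Ist (Uc n ^ 2) = 1 := by
  unfold Ist mu
  have h1 : ∀ θ : ℝ, ig (Uc n ^ 2) θ =
      1 / 2 * (1 - Real.cos (((2 * n + 2 : ℕ) : ℝ) * θ)) := by
    intro θ
    unfold ig
    have h := Chebyshev.U_real_cos θ (n : ℤ)
    have h2 : (Uc n).eval (Real.cos θ) * Real.sin θ = Real.sin (((n : ℝ) + 1) * θ) := by
      simpa using h
    rw [eval_pow, ← mul_pow, h2]
    have e2 : ((2 * n + 2 : ℕ) : ℝ) * θ = 2 * (((n : ℝ) + 1) * θ) := by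
      push_cast
      ring
    rw [e2, Real.cos_two_mul, Real.cos_sq']
    ring
  have h2 : ∫ θ in Set.Ioc 0 Real.pi, ig (Uc n ^ 2) θ = ∫ θ in (0 : ℝ)..Real.pi,
      1 / 2 * (1 - Real.cos (((2 * n + 2 : ℕ) : ℝ) * θ)) := by
    rw [intervalIntegral.integral_of_le Real.pi_pos.le]
    refine setIntegral_congr_fun measurableSet_Ioc fun θ _ => ?_
    exact h1 θ
  have hk0 : ((2 * n + 2 : ℕ) : ℝ) ≠ 0 := by exact_mod_cast (by omega : 2 * n + 2 ≠ 0)
  have h3 : ∫ θ in (0 : ℝ)..Real.pi, Real.cos (((2 * n + 2 : ℕ) : ℝ) * θ) = 0 := by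
    rw [intervalIntegral.integral_comp_mul_left (fun x => Real.cos x) hk0, integral_cos,
      Real.sin_nat_mul_pi]
    simp
  rw [h2, intervalIntegral.integral_const_mul, intervalIntegral.integral_sub
    (Continuous.intervalIntegrable (by fun_prop) _ _)
    (Continuous.intervalIntegrable (by fun_prop) _ _), h3, sub_zero]
  have := Real.pi_pos.ne'
  simp only [intervalIntegral.integral_const, sub_zero, smul_eq_mul, mul_one]
  field_simp

variable {P : Type*} {N : P → ℕ} {U : Ultrafilter ℝ}

variable (N) in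
/-- equidistribution of one sequence -/
def ST1 (x : P → ℝ) : Prop := ∀ m : ℕ, m ≠ 0 →
  Tendsto (qt N fun v => (Uc m).eval (x v)) (𝓝[>] 0) (𝓝 0)

section
variable (hN : Sys N) (hU : (U : Filter ℝ) ≤ 𝓝[>] 0)

include hN hU

theorem mean_one {x : P → ℝ} (hx : ∀ v, |x v| ≤ 1) (h : ST1 N x) (p : ℝ[X]) :
    (M N U fun v => p.eval (x v)) = Ist p := by
  have hp := mem_span p
  induction hp using Submodule.span_induction with
  | mem q hq =>
    obtain ⟨m, rfl⟩ := hq
    rw [Ist_Uc]
    split_ifs with h0
    · subst h0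
      simp only [Uc_zero, eval_one]
      exact M_one hN hU
    · exact M_of_tendsto hU (h m h0)
  | zero =>
    simp only [eval_zero, Ist_zero]
    exact M_const hN hU 0
  | add a b _ _ ha hb' =>
    simp only [eval_add]
    rw [M_add hN hU (bd_eval hx a) (bd_eval hx b), ha, hb', Ist_add]
  | smul c a _ ha =>
    simp only [eval_smul, smul_eq_mul]
    rw [M_const_mul hN hU (bd_eval hx a), ha, Ist_smul]

end

section
variable {k : ℕ} {x : Fin k → P → ℝ}

theorem bd_prod (hx : ∀ j v, |x j v| ≤ 1) (T : Finset (Fin k)) (p : Fin k → ℝ[X]) :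
    Bd fun v => ∏ j ∈ T, (p j).eval (x j v) := by
  classical
  induction T using Finset.induction_on with
  | empty => simpa using Bd.const (P := P) 1
  | insert a T ha ih =>
    simp only [Finset.prod_insert ha]
    exact (bd_eval (hx a) (p a)).mul ih

variable (N U) in
/-- the means of the characters supported on `T` -/
def Free (x : Fin k → P → ℝ) (T : Finset (Fin k)) : Prop :=
  ∀ b : Fin k → ℕ, (∃ j ∈ T, b j ≠ 0) →
    (M N U fun v => ∏ j ∈ T, (Uc (b j)).eval (x j v)) = 0

variable (hN : Sys N) (hU : (U : Filter ℝ) ≤ 𝓝[>] 0) (hx : ∀ j v, |x j v| ≤ 1)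

include hN hU hx

/-- the means of the products of polynomials -/
theorem mean_multi {T : Finset (Fin k)} (h : Free N U x T) (p : Fin k → ℝ[X]) :
    (M N U fun v => ∏ j ∈ T, (p j).eval (x j v)) = ∏ j ∈ T, Ist (p j) := by
  classical
  have key : ∀ T1 : Finset (Fin k), T1 ⊆ T → ∀ p : Fin k → ℝ[X],
      (∀ j ∈ T, j ∉ T1 → ∃ b : ℕ, p j = Uc b) →
      (M N U fun v => ∏ j ∈ T, (p j).eval (x j v)) = ∏ j ∈ T, Ist (p j) := by
    intro T1
    induction T1 using Finset.induction_on with
    | empty =>
      intro _ p hp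
      have hb : ∀ j, ∃ b : ℕ, j ∈ T → p j = Uc b := by
        intro j
        by_cases hj : j ∈ T
        · obtain ⟨b, hb⟩ := hp j hj (Finset.notMem_empty _)
          exact ⟨b, fun _ => hb⟩
        · exact ⟨0, fun h => absurd h hj⟩
      choose b hb using hb
      have e1 : (fun v => ∏ j ∈ T, (p j).eval (x j v)) =
          fun v => ∏ j ∈ T, (Uc (b j)).eval (x j v) := by
        funext v
        exact Finset.prod_congr rfl fun j hj => by rw [hb j hj]
      rw [e1]
      by_cases h0 : ∃ j ∈ T, b j ≠ 0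
      · rw [h b h0]
        obtain ⟨j, hj, hj0⟩ := h0
        symm
        refine Finset.prod_eq_zero hj ?_
        rw [hb j hj, Ist_Uc, if_neg hj0]
      · push Not at h0
        have e2 : (fun v => ∏ j ∈ T, (Uc (b j)).eval (x j v)) = fun _ => (1 : ℝ) := by
          funext v
          refine Finset.prod_eq_one fun j hj => ?_
          rw [h0 j hj, Uc_zero, eval_one]
        rw [e2, M_one hN hU]
        symm
        refine Finset.prod_eq_one fun j hj => ?_
        rw [hb j hj, Ist_Uc, if_pos (h0 j hj)]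
    | insert i T1 hi ih =>
      intro hT p hp
      have hiT : i ∈ T := hT (Finset.mem_insert_self _ _)
      have hT1 : T1 ⊆ T := fun j hj => hT (Finset.mem_insert_of_mem hj)
      have hsplit : ∀ (q : ℝ[X]) (v : P), ∏ j ∈ T, ((Function.update p i q) j).eval (x j v) =
          q.eval (x i v) * ∏ j ∈ T.erase i, (p j).eval (x j v) := by
        intro q v
        rw [← Finset.mul_prod_erase T _ hiT, Function.update_self]
        congr 1
        refine Finset.prod_congr rfl fun j hj => ?_
        rw [Function.update_of_ne (Finset.ne_of_mem_erase hj)]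
      have hsplit2 : ∀ q : ℝ[X], ∏ j ∈ T, Ist ((Function.update p i q) j) =
          Ist q * ∏ j ∈ T.erase i, Ist (p j) := by
        intro q
        rw [← Finset.mul_prod_erase T _ hiT, Function.update_self]
        congr 1
        refine Finset.prod_congr rfl fun j hj => ?_
        rw [Function.update_of_ne (Finset.ne_of_mem_erase hj)]
      have hbR := bd_prod hx (T.erase i) p
      have hq : ∀ q : ℝ[X], (M N U fun v => q.eval (x i v) *
          ∏ j ∈ T.erase i, (p j).eval (x j v)) = Ist q * ∏ j ∈ T.erase i, Ist (p j) := by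
        intro q
        have hqs := mem_span q
        induction hqs using Submodule.span_induction with
        | mem r hr =>
          obtain ⟨m, rfl⟩ := hr
          have h1 := ih hT1 (Function.update p i (Uc m)) (by
            intro j hj hj1
            by_cases hji : j = i
            · subst hji
              exact ⟨m, Function.update_self ..⟩
            · obtain ⟨b, hb⟩ := hp j hj (by
                rw [Finset.mem_insert, not_or]
                exact ⟨hji, hj1⟩)
              exact ⟨b, by rw [Function.update_of_ne hji]; exact hb⟩)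
          simp only [hsplit, hsplit2] at h1
          exact h1
        | zero =>
          simp only [eval_zero, zero_mul, Ist_zero]
          exact M_const hN hU 0
        | add a b _ _ ha hb' =>
          simp only [eval_add, add_mul]
          rw [M_add hN hU ((bd_eval (hx i) a).mul hbR) ((bd_eval (hx i) b).mul hbR), ha, hb',
            Ist_add, add_mul]
        | smul c a _ ha =>
          simp only [eval_smul, smul_eq_mul, mul_assoc]
          rw [M_const_mul hN hU ((bd_eval (hx i) a).mul hbR), ha, Ist_smul, mul_assoc]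
      have h2 := hq (p i)
      rw [Finset.mul_prod_erase T (fun j => Ist (p j)) hiT] at h2
      rw [← h2]
      congr 1
      funext v
      exact (Finset.mul_prod_erase T (fun j => (p j).eval (x j v)) hiT).symm
  exact key T (Finset.Subset.refl _) p fun j hj hj' => absurd hj hj'

/-- the mean square -/
theorem norm_multi {T : Finset (Fin k)} (h : Free N U x T) (a : Fin k → ℕ) :
    (M N U fun v => (∏ j ∈ T, (Uc (a j)).eval (x j v)) ^ 2) = 1 := by
  have h1 := mean_multi hN hU hx h fun j => Uc (a j) ^ 2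
  simp only [Ist_Uc_sq, Finset.prod_const_one, eval_pow] at h1
  simpa only [Finset.prod_pow] using h1

omit hx in
theorem free_single (hx : ∀ j v, |x j v| ≤ 1) (hS : ∀ j, ST1 N (x j)) (i : Fin k) :
    Free N U x {i} := by
  intro b hb
  obtain ⟨j, hj, hj0⟩ := hb
  rw [Finset.mem_singleton] at hj
  subst hj
  simp only [Finset.prod_singleton]
  exact M_of_tendsto hU (hS j _ hj0)

theorem free_pair (hJ : ∀ i j, i ≠ j → JT N (x i) (x j)) {i j : Fin k} (hij : i ≠ j) :
    Free N U x {i, j} := by
  intro b hb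
  simp only [Finset.prod_pair hij]
  refine M_of_tendsto hU (hJ i j hij _ _ ?_)
  obtain ⟨l, hl, hl0⟩ := hb
  rw [Finset.mem_insert, Finset.mem_singleton] at hl
  rcases hl with rfl | rfl
  · exact Or.inl hl0
  · exact Or.inr hl0

/-- the splitting with one factor -/
theorem split_lt (hJ : ∀ i j, i ≠ j → JT N (x i) (x j)) {S : Finset (Fin k)} {i j : Fin k}
    (hij : i ≠ j) (hi : i ∈ S) (hj : j ∈ S) (a : Fin k → ℕ) (hai : a i ≠ 0)
    (hSi : Free N U x {i}) (hSj : Free N U x {j})
    (hRi : Free N U x (S.erase i)) (hRj : Free N U x (S.erase j)) {z : P → ℂ}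
    (hz : ∀ v, ‖z v‖ = 1) :
    |M N U fun v => (∏ l ∈ S, (Uc (a l)).eval (x l v)) * (z v).re| < 1 := by
  classical
  by_contra hcon
  push Not at hcon
  set c := M N U fun v => (∏ l ∈ S, (Uc (a l)).eval (x l v)) * (z v).re with hc
  have hbz : Bd fun v => (z v).re :=
    ⟨1, fun v => (Complex.abs_re_le_norm _).trans (hz v).le⟩
  have key : ∀ i ∈ S, Free N U x {i} → Free N U x (S.erase i) →
      c ^ 2 = 1 ∧ Nl N U fun v => (Uc (a i)).eval (x i v) -
        c * ((∏ l ∈ S.erase i, (Uc (a l)).eval (x l v)) * (z v).re) := by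
    intro i hi h1 h2
    have hnB : ∀ v, ‖((∏ l ∈ S.erase i, (Uc (a l)).eval (x l v) : ℝ) : ℂ) * z v‖ =
        |∏ l ∈ S.erase i, (Uc (a l)).eval (x l v)| := by
      intro v
      rw [norm_mul, hz, mul_one, Complex.norm_real, Real.norm_eq_abs]
    have hre : ∀ v, (((∏ l ∈ S.erase i, (Uc (a l)).eval (x l v) : ℝ) : ℂ) * z v).re =
        (∏ l ∈ S.erase i, (Uc (a l)).eval (x l v)) * (z v).re := fun v =>
      Complex.re_ofReal_mul _ _
    have h3 := ext2 hN hU (A := fun v => (Uc (a i)).eval (x i v))
      (B := fun v => ((∏ l ∈ S.erase i, (Uc (a l)).eval (x l v) : ℝ) : ℂ) * z v)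
      (bd_eval (hx i) _) (by simp only [hnB]; exact (bd_prod hx _ _).abs)
      (by
        have := norm_multi hN hU hx h1 a
        simp only [Finset.prod_singleton] at this
        exact this.le) (by
        simp only [hnB, sq_abs]
        exact (norm_multi hN hU hx h2 a).le) (c := c) (by
        rw [hc]
        congr 1
        funext v
        rw [hre, ← Finset.mul_prod_erase S _ hi]
        ring) hcon
    refine ⟨h3.1, ?_⟩
    have h4 := h3.2.1
    simp only [hre] at h4
    exact h4
  obtain ⟨-, k1⟩ := key i hi hSi hRi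
  obtain ⟨-, k2⟩ := key j hj hSj hRj
  have k3 := (k1.mul hN hU (bd_eval (hx i) (Uc (a i)))).sub hN hU
    (k2.mul hN hU (bd_eval (hx j) (Uc (a j))))
  refine no_eq hN hU (hx i) (hx j) (hJ i j hij) (p := Uc (a i)) (q := Uc (a j))
    (by rw [Uc_natDegree]; omega) ?_
  refine (congrArg (Nl N U) (funext fun v => ?_)).mp k3
  have e1 := Finset.mul_prod_erase S (fun l => (Uc (a l)).eval (x l v)) hi
  have e2 := Finset.mul_prod_erase S (fun l => (Uc (a l)).eval (x l v)) hj
  linear_combination (-(c * (z v).re)) * (e1 - e2)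

/-- four factors -/
theorem four_lt (hJ : ∀ i j, i ≠ j → JT N (x i) (x j)) {i j l m : Fin k}
    (hij : i ≠ j) (hil : i ≠ l) (him : i ≠ m) (hjl : j ≠ l) (hjm : j ≠ m) (hlm : l ≠ m)
    (a : Fin k → ℕ) (hai : a i ≠ 0) {z : P → ℂ} (hz : ∀ v, ‖z v‖ = 1) :
    |M N U fun v => ((Uc (a i)).eval (x i v) * (Uc (a j)).eval (x j v) *
      (Uc (a l)).eval (x l v) * (Uc (a m)).eval (x m v)) * (z v).re| < 1 := by
  classical
  by_contra hcon
  push Not at hcon
  set c := M N U fun v => ((Uc (a i)).eval (x i v) * (Uc (a j)).eval (x j v) *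
      (Uc (a l)).eval (x l v) * (Uc (a m)).eval (x m v)) * (z v).re with hc
  have hbz : Bd fun v => (z v).re :=
    ⟨1, fun v => (Complex.abs_re_le_norm _).trans (hz v).le⟩
  have hb : ∀ i, Bd fun v => (Uc (a i)).eval (x i v) := fun i => bd_eval (hx i) _
  have key : ∀ i j l m : Fin k, i ≠ j → l ≠ m →
      (M N U fun v => ((Uc (a i)).eval (x i v) * (Uc (a j)).eval (x j v) *
      (Uc (a l)).eval (x l v) * (Uc (a m)).eval (x m v)) * (z v).re) = c →
      Nl N U fun v => (Uc (a i)).eval (x i v) * (Uc (a j)).eval (x j v) -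
        c * (((Uc (a l)).eval (x l v) * (Uc (a m)).eval (x m v)) * (z v).re) := by
    intro i j l m hij hlm hcc
    have n1 := norm_multi hN hU hx (free_pair hN hU hx hJ hij) a
    have n2 := norm_multi hN hU hx (free_pair hN hU hx hJ hlm) a
    simp only [Finset.prod_pair hij] at n1
    simp only [Finset.prod_pair hlm] at n2
    have hnB : ∀ v, ‖((((Uc (a l)).eval (x l v) * (Uc (a m)).eval (x m v) : ℝ) : ℂ)) * z v‖ =
        |(Uc (a l)).eval (x l v) * (Uc (a m)).eval (x m v)| := by
      intro v
      rw [norm_mul, hz, mul_one, Complex.norm_real, Real.norm_eq_abs]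
    have hre : ∀ v, ((((Uc (a l)).eval (x l v) * (Uc (a m)).eval (x m v) : ℝ) : ℂ) * z v).re =
        ((Uc (a l)).eval (x l v) * (Uc (a m)).eval (x m v)) * (z v).re := fun v =>
      Complex.re_ofReal_mul _ _
    have h3 := ext2 hN hU (A := fun v => (Uc (a i)).eval (x i v) * (Uc (a j)).eval (x j v))
      (B := fun v => (((Uc (a l)).eval (x l v) * (Uc (a m)).eval (x m v) : ℝ) : ℂ) * z v)
      ((hb i).mul (hb j)) (by simp only [hnB]; exact ((hb l).mul (hb m)).abs) n1.le (by
        simp only [hnB, sq_abs]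
        exact n2.le) (c := c) (by
        rw [← hcc]
        congr 1
        funext v
        rw [hre]
        ring) hcon
    have h4 := h3.2.1
    simp only [hre] at h4
    exact h4
  have D3 := key i m j l him hjl (by
    rw [hc]
    congr 1
    funext v
    ring)
  have D2 := key i l j m hil hjm (by
    rw [hc]
    congr 1
    funext v
    ring)
  have D1 := key l m i j hlm hij (by
    rw [hc]
    congr 1
    funext v
    ring)
  have k1 := D3.mul hN hU (((hb i).sq).sub (hb m).sq)
  have k2 := (D2.mul hN hU ((hb i).mul (hb j))).mul hN hU (hbz.const_mul c)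
  have k3 := (D1.mul hN hU ((hb j).mul (hb m))).mul hN hU (hbz.const_mul c)
  have k4 := k1.add hN hU (k2.sub hN hU k3)
  refine no_eq_mul hN hU (hx i) (hx m) (hJ i m him) (p := Uc (a i)) (q := Uc (a m))
    (by rw [Uc_natDegree]; omega) (Chebyshev.U_ne_zero ℝ _ (by omega)) ?_
  refine (congrArg (Nl N U) (funext fun v => ?_)).mp k4
  ring

/-- one or two factors, and a function whose modulus has finitely many values -/
theorem fin_lt {p q : ℝ[X]} {i j : Fin k}
    (hm : ∀ n : ℕ, (M N U fun v => (p ^ n).eval (x i v) * (q ^ n).eval (x j v)) =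
      Ist (p ^ n) * Ist (q ^ n))
    (hp : 0 < p.natDegree) (hq : q ≠ 0)
    (h1 : (M N U fun v => (p.eval (x i v) * q.eval (x j v)) ^ 2) ≤ 1) {z : P → ℂ}
    (hz : Bd fun v => ‖z v‖) (hz2 : (M N U fun v => ‖z v‖ ^ 2) ≤ 1) {V : Finset ℝ}
    (hV : ∀ v, ‖z v‖ ^ 2 ∈ V) :
    |M N U fun v => (p.eval (x i v) * q.eval (x j v)) * (z v).re| < 1 := by
  by_contra hcon
  push Not at hcon
  have hA : Bd fun v => p.eval (x i v) * q.eval (x j v) :=
    (bd_eval (hx i) p).mul (bd_eval (hx j) q)
  obtain ⟨h2, h3, h4⟩ := ext2 hN hU hA hz h1 hz2 rfl hcon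
  set c := M N U fun v => (p.eval (x i v) * q.eval (x j v)) * (z v).re with hc
  refine no_fin hN hU (hx i) (hx j) hm hp hq (g := fun v => ‖z v‖ ^ 2) hV ?_
  have k1 := h3.mul hN hU (hA.add ((bd_re hN hU hz).const_mul c))
  have k2 := h4.mul hN hU (bd_im hN hU hz)
  refine (congrArg (Nl N U) (funext fun v => ?_)).mp (k1.sub hN hU k2)
  rw [← Complex.normSq_eq_norm_sq, Complex.normSq_apply]
  linear_combination (-(z v).re ^ 2) * h2

end

end Pool.Agent.Y792.EP
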